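import Mathlib
import Pool.Agent.TH364.SG.Z7
import Pool.Agent.TH364.SG.Z8

set_option autoImplicit false

/-!
# The metric cotype inequality for q-concave lattices in the full range `m ≥ n^(1/q)`
-/

namespace Pool.Agent.Results.MP_f492a7_an.LatticeMetricCotype

open Finset MeasureTheory

universe u v

/-- The metric cotype `q` inequality with constant `K` for `(n, m)`: every `f` on the discrete torus
`(Z/m)^n` satisfies
`∑_j E_x ‖f(x + (m/2) e_j) - f(x)‖^q ≤ K^q m^q E_{x,ε} ‖f(x + ε) - f(x)‖^q`,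
with `x` uniform on the torus and `ε` uniform on `{-1, 0, 1}^n`. -/
def MetricCotypeInequality (Y : Type u) [NormedAddCommGroup Y] (q K : ℝ) (n m : ℕ) [NeZero m] :
    Prop :=
  ∀ f : (Fin n → ZMod m) → Y,
    ∑ j : Fin n, (∑ x : Fin n → ZMod m, ‖f (x + (m / 2) • Pi.single j 1) - f x‖ ^ q) /
        (m : ℝ) ^ n ≤
      K ^ q * (m : ℝ) ^ q * ((∑ x : Fin n → ZMod m,
        ∑ ε ∈ Fintype.piFinset (fun _ : Fin n => ({-1, 0, 1} : Finset ℤ)),
          ‖f (x + fun j => (ε j : ZMod m)) - f x‖ ^ q) / ((m : ℝ) ^ n * 3 ^ n))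

/-- `Y` is locally a `q`-concave lattice with constant `K`: for every finite set `s` of vectors and
every `δ > 0` there is a linear map `T : ℝ^d → Y` such that
* `‖T a‖ ≤ ‖T b‖` whenever `|a_i| ≤ |b_i|` for every `i`,
* `∑_j ‖T a_j‖^q ≤ K^q ‖T (∑_j |a_j|^q)^(1/q)‖^q` for every finite sequence `a_1, …, a_k` in `ℝ^d`,
  the `q`-th powers and the root being taken coordinatewise,
* every vector of `s` is within `δ` of the range of `T`. -/
def LocallyConcaveLattice (Y : Type u) [NormedAddCommGroup Y] [NormedSpace ℝ Y] (q K : ℝ) : Prop :=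
  ∀ (s : Finset Y) (δ : ℝ), 0 < δ → ∃ (d : ℕ) (T : (Fin d → ℝ) →ₗ[ℝ] Y),
    (∀ a b : Fin d → ℝ, (∀ i, |a i| ≤ |b i|) → ‖T a‖ ≤ ‖T b‖) ∧
    (∀ (k : ℕ) (a : Fin k → Fin d → ℝ), ∑ j, ‖T (a j)‖ ^ q ≤
      K ^ q * ‖T (fun i => (∑ j, |a j i| ^ q) ^ (1 / q))‖ ^ q) ∧
    ∀ y ∈ s, ∃ c : Fin d → ℝ, ‖y - T c‖ ≤ δ

/-- For all real `q ≥ 2` and `K ≥ 1`, every real normed space that is locally a `q`-concave lattice
with constant `K` satisfies the metric cotype `q` inequality for `(n, m)` with constant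
`2000000 K (log (n+1))^(1/2)`, for every `n ≥ 1` and every even `m ≥ n^(1/q)`; and for every measure
`μ` the space `L_1(μ)` is locally a `q`-concave lattice with constant `1`. -/
theorem result :
    (∀ (Y : Type u) [NormedAddCommGroup Y] [NormedSpace ℝ Y] (q K : ℝ), 2 ≤ q → 1 ≤ K →
      LocallyConcaveLattice Y q K → ∀ (n m : ℕ) [NeZero m], 1 ≤ n → Even m →
      (n : ℝ) ^ (1 / q) ≤ m →
      MetricCotypeInequality Y q (2000000 * K * Real.sqrt (Real.log (n + 1))) n m) ∧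
    (∀ (Ω : Type v) [MeasurableSpace Ω] (μ : Measure Ω) (q : ℝ), 1 ≤ q →
      LocallyConcaveLattice (Lp ℝ 1 μ) q 1) := by
  refine ⟨?_, ?_⟩
  · intro Y _ _ q K hq hK hY n m _ hn _ hmn f
    exact TH364.SG.lat_all n m hn hq hK hY hmn f
  · intro Ω _ μ q hq s δ hδ
    exact TH364.SG.L1_model hq s δ hδ

end Pool.Agent.Results.MP_f492a7_an.LatticeMetricCotype
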