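import Mathlib
import Pool.Agent.TH364.SG.W9
import Pool.Agent.Results.MP_fd02da_an.SchattenIsometries

set_option autoImplicit false

/-!
# The metric cotype inequality for the trace class in the full range `m ≥ n^(1/q)`
-/

namespace Pool.Agent.Results.MP_f492a7_an.TraceClassMetricCotype

open Pool.Agent.Results.MP_fd02da_an.SchattenIsometries
open Finset

universe u v

/-- The trace class `S_1(H)`: the compact operators `T` on `H` with `tr (T* T)^(1/2) < ∞`, normed by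
`tr (T* T)^(1/2)`. -/
noncomputable abbrev TraceClass (H : Type v) [NormedAddCommGroup H] [InnerProductSpace ℂ H]
    [CompleteSpace H] : Type v := SchattenClass (1 : ℝ) H

/-- The metric cotype `q` inequality with constant `K` for `(n, m)`: every `f` on the discrete torus
`(Z/m)^n` satisfies
`∑_j E_x ‖f(x + (m/2) e_j) - f(x)‖^q ≤ K^q m^q E_{x,ε} ‖f(x + ε) - f(x)‖^q`,
with `x` uniform on the torus and `ε` uniform on `{-1, 0, 1}^n`. -/
def MetricCotypeInequality (Y : Type u) [NormedAddCommGroup Y] (q K : ℝ) (n m : ℕ) [NeZero m] :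
    Prop :=
  ∀ f : (Fin n → ZMod m) → Y,
    ∑ j : Fin n, (∑ x : Fin n → ZMod m, ‖f (x + (m / 2) • Pi.single j 1) - f x‖ ^ q) /
        (m : ℝ) ^ n ≤
      K ^ q * (m : ℝ) ^ q * ((∑ x : Fin n → ZMod m,
        ∑ ε ∈ Fintype.piFinset (fun _ : Fin n => ({-1, 0, 1} : Finset ℤ)),
          ‖f (x + fun j => (ε j : ZMod m)) - f x‖ ^ q) / ((m : ℝ) ^ n * 3 ^ n))

/-- For every real `q ≥ 2`, every `n ≥ 1` and every even `m ≥ n^(1/q)`, the trace class of every
complex Hilbert space satisfies the metric cotype `q` inequality for `(n, m)` with constant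
`2000000 (log (n+1))^(1/2)`. -/
theorem result (H : Type v) [NormedAddCommGroup H] [InnerProductSpace ℂ H] [CompleteSpace H]
    (q : ℝ) (hq : 2 ≤ q) (n : ℕ) (hn : 1 ≤ n) (m : ℕ) [NeZero m] (_hm : Even m)
    (hmn : (n : ℝ) ^ (1 / q) ≤ m) :
    MetricCotypeInequality (TraceClass H) q (2000000 * Real.sqrt (Real.log (n + 1))) n m := by
  intro f
  have hq0 : 0 < q := by linarith
  have hm0 : (0 : ℝ) < m := by
    have : 0 < m := Nat.pos_of_ne_zero (NeZero.ne m)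
    exact_mod_cast this
  have hcard : (Fintype.card (Fin n → ZMod m) : ℝ) = (m : ℝ) ^ n := by
    rw [Fintype.card_fun, ZMod.card, Fintype.card_fin]; push_cast; rfl
  obtain ⟨A, hA⟩ : ∃ A : ℝ, A = (∑ x : Fin n → ZMod m,
        ∑ ε ∈ Fintype.piFinset (fun _ : Fin n => ({-1, 0, 1} : Finset ℤ)),
          ‖f (x + fun j => (ε j : ZMod m)) - f x‖ ^ q) / ((m : ℝ) ^ n * 3 ^ n) := ⟨_, rfl⟩
  have hS0 : 0 ≤ ∑ x : Fin n → ZMod m,
      ∑ ε ∈ Fintype.piFinset (fun _ : Fin n => ({-1, 0, 1} : Finset ℤ)),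
        ‖f (x + fun j => (ε j : ZMod m)) - f x‖ ^ q :=
    Finset.sum_nonneg fun x _ => Finset.sum_nonneg fun ε _ => Real.rpow_nonneg (norm_nonneg _) _
  have hA0 : 0 ≤ A := by rw [hA]; positivity
  obtain ⟨b, hb⟩ : ∃ b : ℝ, b = A ^ (1 / q) := ⟨_, rfl⟩
  have hb0 : 0 ≤ b := by rw [hb]; exact Real.rpow_nonneg hA0 _
  have hbq : b ^ q = A := by
    rw [hb, ← Real.rpow_mul hA0, one_div_mul_cancel hq0.ne', Real.rpow_one]
  have hmain := TH364.SG.torus_main n m hn f hq hb0 hmn (by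
    rw [hcard, hbq]
    have e1 : ∀ (a : Fin n → Fin 3) (ε : Fin n → Bool),
        ∑ x, ‖f (x + TH364.SG.dv (TH364.SG.cu n m) a ε) - f x‖ ^ q =
        (fun τ : Fin n → ℤ => ∑ x, ‖f (x + fun j => (τ j : ZMod m)) - f x‖ ^ q)
          (fun j => TH364.SG.vv (a j, ε j)) := by
      intro a ε
      rw [TH364.SG.dv_cu]
    simp only [e1]
    rw [TH364.SG.tri_sum n (fun τ : Fin n → ℤ => ∑ x, ‖f (x + fun j => (τ j : ZMod m)) - f x‖ ^ q),
      Finset.sum_comm]
    refine le_of_eq ?_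
    rw [hA]
    field_simp)
  obtain ⟨K, hK⟩ : ∃ K : ℝ, K = 2000000 * Real.sqrt (Real.log (n + 1)) := ⟨_, rfl⟩
  have hK0 : 0 ≤ K := by rw [hK]; positivity
  have hlog : 2000000 * Real.sqrt (Real.log (n + 1 : ℕ)) = K := by rw [hK]; push_cast; rfl
  rw [hlog, hcard] at hmain
  rw [← hK, ← hA]
  obtain ⟨X, hX⟩ : ∃ X : ℝ, X = ∑ j, ∑ x, ‖f (x + (m / 2) • TH364.SG.cu n m j) - f x‖ ^ q :=
    ⟨_, rfl⟩
  have hX0 : 0 ≤ X := by
    rw [hX]
    exact Finset.sum_nonneg fun j _ => Finset.sum_nonneg fun x _ =>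
      Real.rpow_nonneg (norm_nonneg _) _
  rw [← hX] at hmain
  have hN : (0 : ℝ) < (m : ℝ) ^ n := by positivity
  have h1 := Real.rpow_le_rpow (Real.rpow_nonneg hX0 _) hmain hq0.le
  rw [← Real.rpow_mul hX0, one_div_mul_cancel hq0.ne', Real.rpow_one,
    Real.mul_rpow hK0 (by positivity), Real.mul_rpow hm0.le (by positivity),
    Real.mul_rpow (by positivity) hb0, ← Real.rpow_mul hN.le, one_div_mul_cancel hq0.ne',
    Real.rpow_one, hbq] at h1
  rw [← Finset.sum_div]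
  have e2 : ∑ j : Fin n, ∑ x : Fin n → ZMod m, ‖f (x + (m / 2) • Pi.single j 1) - f x‖ ^ q = X := by
    rw [hX]; rfl
  rw [e2, div_le_iff₀ hN]
  calc X ≤ K ^ q * ((m : ℝ) ^ q * ((m : ℝ) ^ n * A)) := h1
    _ = K ^ q * (m : ℝ) ^ q * A * (m : ℝ) ^ n := by ring

end Pool.Agent.Results.MP_f492a7_an.TraceClassMetricCotype
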